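import Pool.Agent.Helper57.NW.Defs
import Pool.Agent.Helper21.NS.Win

/-! # NW: at most `L` zeros in the window -/

set_option autoImplicit false
open MeasureTheory Set Filter Topology
open Pool.Agent.Helper93.UG (zc sp)
open Pool.Agent.Helper57.NW

namespace Pool.Agent.Helper14.NW

theorem win_of (h1 : Pool.Agent.Helper93.UX.TX1) {d : ℝ} (hd : 0 < d) (_hd1 : d ≤ 1) :
    ∃ C T₀ : ℝ, 1 ≤ C ∧ ∀ T R L : ℝ, T₀ ≤ T → C ≤ L → L ≤ Real.log T →
    1 ≤ R → R ≤ L ^ (1 - d) →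
    volume {t : ℝ | t ∈ Icc (T / 2) (3 * T) ∧ L < (zc (Wr T R 2 t) : ℝ)} ≤
      ENNReal.ofReal (C * L ^ (-4 : ℝ) * T) := by
  obtain ⟨C, T₀, hC, h⟩ := Pool.Agent.Helper21.NS.win_of h1 (k₁ := max (1 - d) (1 / 2)) (k₂ := 1) (B := 4)
    (lt_max_of_lt_right (by norm_num)) (max_lt (by linarith) (by norm_num))
    (max_lt (by linarith) (by norm_num)) (by norm_num)
  refine ⟨C, T₀, hC, fun T R L hT hL hLT hR1 hR => ?_⟩
  have hw : 2 * R ≤ 2 * L ^ (max (1 - d) (1 / 2)) := by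
    have h2 : L ^ (1 - d) ≤ L ^ (max (1 - d) (1 / 2)) :=
      Real.rpow_le_rpow_of_exponent_le (hC.trans hL) (le_max_left _ _)
    linarith
  have h3 := h T L (2 * R) hT hL hLT (by linarith) hw
  rw [Real.rpow_one] at h3
  exact h3

end Pool.Agent.Helper14.NW
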